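import Pool.Agent.R877.RN.Stm

/-! RN-EXD: the exponential of a nilpotent derivation is an automorphism. -/

namespace R877.RN
open Matrix Filter Topology

namespace EXDaux

variable {n : ℕ}

/-- multiplication on the value -/
noncomputable def H1 : Mat n →ₐ[ℝ] Module.End ℝ (Br n) :=
  AlgHom.ofLinearMap
    { toFun := fun A =>
        { toFun := fun ν i j k => ∑ r, A k r * ν i j r
          map_add' := by
            intro x y; funext i j k
            simp only [Pi.add_apply, mul_add, Finset.sum_add_distrib]
          map_smul' := by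
            intro c x; funext i j k
            simp only [Pi.smul_apply, smul_eq_mul, RingHom.id_apply, Finset.mul_sum]
            exact Finset.sum_congr rfl fun r _ => by ring }
      map_add' := by
        intro A B; refine LinearMap.ext fun ν => ?_; funext i j k
        simp only [LinearMap.coe_mk, AddHom.coe_mk, Matrix.add_apply, add_mul,
          Finset.sum_add_distrib, LinearMap.add_apply, Pi.add_apply]
      map_smul' := by
        intro c A; refine LinearMap.ext fun ν => ?_; funext i j k
        simp only [LinearMap.coe_mk, AddHom.coe_mk, Matrix.smul_apply, smul_eq_mul,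
          RingHom.id_apply, LinearMap.smul_apply, Pi.smul_apply, Finset.mul_sum]
        exact Finset.sum_congr rfl fun r _ => by ring }
    (by
      refine LinearMap.ext fun ν => ?_; funext i j k
      simp only [LinearMap.coe_mk, AddHom.coe_mk, Matrix.one_apply, ite_mul, one_mul, zero_mul,
        Finset.sum_ite_eq, Finset.mem_univ, if_true]
      rfl)
    (by
      intro A B; refine LinearMap.ext fun ν => ?_; funext i j k
      simp only [LinearMap.coe_mk, AddHom.coe_mk, Matrix.mul_apply, Finset.sum_mul,
        Module.End.mul_apply, Finset.mul_sum]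
      rw [Finset.sum_comm]
      exact Finset.sum_congr rfl fun r _ => Finset.sum_congr rfl fun s _ => by ring)

/-- multiplication on the first argument -/
noncomputable def H2 : Mat n →ₐ[ℝ] Module.End ℝ (Br n) :=
  AlgHom.ofLinearMap
    { toFun := fun A =>
        { toFun := fun ν i j k => ∑ p, A i p * ν p j k
          map_add' := by
            intro x y; funext i j k
            simp only [Pi.add_apply, mul_add, Finset.sum_add_distrib]
          map_smul' := by
            intro c x; funext i j k
            simp only [Pi.smul_apply, smul_eq_mul, RingHom.id_apply, Finset.mul_sum]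
            exact Finset.sum_congr rfl fun r _ => by ring }
      map_add' := by
        intro A B; refine LinearMap.ext fun ν => ?_; funext i j k
        simp only [LinearMap.coe_mk, AddHom.coe_mk, Matrix.add_apply, add_mul,
          Finset.sum_add_distrib, LinearMap.add_apply, Pi.add_apply]
      map_smul' := by
        intro c A; refine LinearMap.ext fun ν => ?_; funext i j k
        simp only [LinearMap.coe_mk, AddHom.coe_mk, Matrix.smul_apply, smul_eq_mul,
          RingHom.id_apply, LinearMap.smul_apply, Pi.smul_apply, Finset.mul_sum]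
        exact Finset.sum_congr rfl fun r _ => by ring }
    (by
      refine LinearMap.ext fun ν => ?_; funext i j k
      simp only [LinearMap.coe_mk, AddHom.coe_mk, Matrix.one_apply, ite_mul, one_mul, zero_mul,
        Finset.sum_ite_eq, Finset.mem_univ, if_true]
      rfl)
    (by
      intro A B; refine LinearMap.ext fun ν => ?_; funext i j k
      simp only [LinearMap.coe_mk, AddHom.coe_mk, Matrix.mul_apply, Finset.sum_mul,
        Module.End.mul_apply, Finset.mul_sum]
      rw [Finset.sum_comm]
      exact Finset.sum_congr rfl fun r _ => Finset.sum_congr rfl fun s _ => by ring)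

/-- multiplication on the second argument -/
noncomputable def H3 : Mat n →ₐ[ℝ] Module.End ℝ (Br n) :=
  AlgHom.ofLinearMap
    { toFun := fun A =>
        { toFun := fun ν i j k => ∑ q, A j q * ν i q k
          map_add' := by
            intro x y; funext i j k
            simp only [Pi.add_apply, mul_add, Finset.sum_add_distrib]
          map_smul' := by
            intro c x; funext i j k
            simp only [Pi.smul_apply, smul_eq_mul, RingHom.id_apply, Finset.mul_sum]
            exact Finset.sum_congr rfl fun r _ => by ring }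
      map_add' := by
        intro A B; refine LinearMap.ext fun ν => ?_; funext i j k
        simp only [LinearMap.coe_mk, AddHom.coe_mk, Matrix.add_apply, add_mul,
          Finset.sum_add_distrib, LinearMap.add_apply, Pi.add_apply]
      map_smul' := by
        intro c A; refine LinearMap.ext fun ν => ?_; funext i j k
        simp only [LinearMap.coe_mk, AddHom.coe_mk, Matrix.smul_apply, smul_eq_mul,
          RingHom.id_apply, LinearMap.smul_apply, Pi.smul_apply, Finset.mul_sum]
        exact Finset.sum_congr rfl fun r _ => by ring }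
    (by
      refine LinearMap.ext fun ν => ?_; funext i j k
      simp only [LinearMap.coe_mk, AddHom.coe_mk, Matrix.one_apply, ite_mul, one_mul, zero_mul,
        Finset.sum_ite_eq, Finset.mem_univ, if_true]
      rfl)
    (by
      intro A B; refine LinearMap.ext fun ν => ?_; funext i j k
      simp only [LinearMap.coe_mk, AddHom.coe_mk, Matrix.mul_apply, Finset.sum_mul,
        Module.End.mul_apply, Finset.mul_sum]
      rw [Finset.sum_comm]
      exact Finset.sum_congr rfl fun r _ => Finset.sum_congr rfl fun s _ => by ring)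

theorem H1_apply (A : Mat n) (ν : Br n) (i j k : Fin n) :
    H1 A ν i j k = ∑ r, A k r * ν i j r := rfl

theorem H2_apply (A : Mat n) (ν : Br n) (i j k : Fin n) :
    H2 A ν i j k = ∑ p, A i p * ν p j k := rfl

theorem H3_apply (A : Mat n) (ν : Br n) (i j k : Fin n) :
    H3 A ν i j k = ∑ q, A j q * ν i q k := rfl

theorem c12 (A B : Mat n) : Commute (H1 A) (H2 B) := by
  unfold Commute SemiconjBy
  refine LinearMap.ext fun ν => ?_; funext i j k
  simp only [Module.End.mul_apply, H1_apply, H2_apply, Finset.mul_sum]
  rw [Finset.sum_comm]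
  exact Finset.sum_congr rfl fun r _ => Finset.sum_congr rfl fun s _ => by ring

theorem c13 (A B : Mat n) : Commute (H1 A) (H3 B) := by
  unfold Commute SemiconjBy
  refine LinearMap.ext fun ν => ?_; funext i j k
  simp only [Module.End.mul_apply, H1_apply, H3_apply, Finset.mul_sum]
  rw [Finset.sum_comm]
  exact Finset.sum_congr rfl fun r _ => Finset.sum_congr rfl fun s _ => by ring

theorem c23 (A B : Mat n) : Commute (H2 A) (H3 B) := by
  unfold Commute SemiconjBy
  refine LinearMap.ext fun ν => ?_; funext i j k
  simp only [Module.End.mul_apply, H2_apply, H3_apply, Finset.mul_sum]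
  rw [Finset.sum_comm]
  exact Finset.sum_congr rfl fun r _ => Finset.sum_congr rfl fun s _ => by ring

theorem ex_eq (N : Mat n) (t : ℝ) (hN : N ^ n = 0) : ex N t = IsNilpotent.exp (t • N) := by
  have h : (t • N) ^ n = 0 := by rw [smul_pow, hN, smul_zero]
  rw [IsNilpotent.exp_eq_sum h]
  unfold ex
  refine Finset.sum_congr rfl fun m _ => ?_
  rw [smul_pow]
  have : ((m.factorial : ℚ)⁻¹ • (t ^ m • N ^ m) : Mat n) =
      (((m.factorial : ℝ)⁻¹) • (t ^ m • N ^ m) : Mat n) := by
    ext i j
    simp only [Matrix.smul_apply, Rat.smul_def, smul_eq_mul]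
    push_cast
    rfl
  rw [this, smul_smul]
  congr 1
  rw [div_eq_inv_mul]

theorem map_exp_of (f : Mat n →ₐ[ℝ] Module.End ℝ (Br n)) (X : Mat n) (hX : X ^ n = 0) :
    f (IsNilpotent.exp X) = IsNilpotent.exp (f X) := by
  have h : (f X) ^ n = 0 := by rw [← map_pow, hX, map_zero]
  rw [IsNilpotent.exp_eq_sum h, IsNilpotent.exp_eq_sum hX, map_sum]
  refine Finset.sum_congr rfl fun m _ => ?_
  rw [← map_pow]
  exact map_rat_smul f.toLinearMap _ _

end EXDaux

open EXDaux

theorem p_EXD : P_EXD := by
  intro n N μ hN hD t
  have hX : (t • N) ^ n = 0 := by rw [smul_pow, hN, smul_zero]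
  have hXT : ((t • N)ᵀ) ^ n = 0 := by rw [← Matrix.transpose_pow, hX, Matrix.transpose_zero]
  have hE := ex_eq N t hN
  have hunit : IsUnit (ex N t) := by
    rw [hE]
    exact IsNilpotent.isUnit_exp ⟨n, hX⟩
  have hdet : IsUnit (ex N t).det := (Matrix.isUnit_iff_isUnit_det _).mp hunit
  refine ⟨hdet, ?_⟩
  set E := ex N t with hEdef
  have hET : Eᵀ = IsNilpotent.exp ((t • N)ᵀ) := by
    rw [hE, IsNilpotent.exp_eq_sum hX, IsNilpotent.exp_eq_sum hXT, Matrix.transpose_sum]
    refine Finset.sum_congr rfl fun m _ => ?_
    rw [← Matrix.transpose_pow]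
    rfl
  -- the key identity
  have key : H1 E μ = H2 Eᵀ (H3 Eᵀ μ) := by
    rw [hET, hE, map_exp_of H1 _ hX, map_exp_of H2 _ hXT, map_exp_of H3 _ hXT]
    set a := H1 (t • N)
    set b := H2 ((t • N)ᵀ)
    set c := H3 ((t • N)ᵀ)
    have ha : a ^ n = 0 := by
      show (H1 (t • N)) ^ n = 0
      rw [← map_pow, hX, map_zero]
    have hb : b ^ n = 0 := by
      show (H2 ((t • N)ᵀ)) ^ n = 0
      rw [← map_pow, hXT, map_zero]
    have hc : c ^ n = 0 := by
      show (H3 ((t • N)ᵀ)) ^ n = 0
      rw [← map_pow, hXT, map_zero]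
    have hbc : Commute b c := c23 _ _
    have hab : Commute a (b + c) := (c12 _ _).add_right (c13 _ _)
    have h0 : a μ = (b + c) μ := by
      funext i j k
      show H1 (t • N) μ i j k = H2 ((t • N)ᵀ) μ i j k + H3 ((t • N)ᵀ) μ i j k
      rw [H1_apply, H2_apply, H3_apply]
      have h1 := hD i j k
      simp only [Matrix.smul_apply, Matrix.transpose_apply, smul_eq_mul]
      calc ∑ r, t * N k r * μ i j r = t * ∑ r, N k r * μ i j r := by
            rw [Finset.mul_sum]; exact Finset.sum_congr rfl fun r _ => by ring
        _ = t * (∑ p, N p i * μ p j k + ∑ q, N q j * μ i q k) := by rw [h1]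
        _ = _ := by
            rw [mul_add, Finset.mul_sum, Finset.mul_sum]
            congr 1
            · exact Finset.sum_congr rfl fun r _ => by ring
            · exact Finset.sum_congr rfl fun r _ => by ring
    have hpow : ∀ m : ℕ, (a ^ m) μ = ((b + c) ^ m) μ := by
      intro m
      induction m with
      | zero => rfl
      | succ m ih =>
        rw [pow_succ', Module.End.mul_apply, ih]
        have hcm : a * (b + c) ^ m = (b + c) ^ m * a := (hab.pow_right m).eq
        rw [← Module.End.mul_apply, hcm, Module.End.mul_apply, h0, ← Module.End.mul_apply,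
          ← pow_succ]
    obtain ⟨K0, hK0⟩ := hbc.isNilpotent_add ⟨n, hb⟩ ⟨n, hc⟩
    have hK1 : (b + c) ^ (max K0 n) = 0 := pow_eq_zero_of_le (le_max_left _ _) hK0
    have hK2 : a ^ (max K0 n) = 0 := pow_eq_zero_of_le (le_max_right _ _) ha
    have hexp : IsNilpotent.exp (b + c) = IsNilpotent.exp b * IsNilpotent.exp c :=
      IsNilpotent.exp_add_of_commute hbc ⟨n, hb⟩ ⟨n, hc⟩
    rw [← Module.End.mul_apply, ← hexp, IsNilpotent.exp_eq_sum hK1, IsNilpotent.exp_eq_sum hK2,
      LinearMap.sum_apply, LinearMap.sum_apply]
    refine Finset.sum_congr rfl fun m _ => ?_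
    rw [LinearMap.smul_apply, LinearMap.smul_apply, hpow m]
  -- the action
  have hact : act E μ = H2 (E⁻¹)ᵀ (H3 (E⁻¹)ᵀ (H1 E μ)) := by
    funext i j k
    rw [H2_apply]
    unfold act
    refine Finset.sum_congr rfl fun p _ => ?_
    rw [H3_apply, Finset.mul_sum]
    refine Finset.sum_congr rfl fun q _ => ?_
    rw [H1_apply, Finset.mul_sum, Finset.mul_sum]
    refine Finset.sum_congr rfl fun r _ => ?_
    rw [Matrix.transpose_apply, Matrix.transpose_apply]
    ring
  have hinv : (E⁻¹)ᵀ * Eᵀ = 1 := by
    rw [← Matrix.transpose_mul, Matrix.mul_nonsing_inv _ hdet, Matrix.transpose_one]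
  rw [hact, key]
  have e1 : H3 (E⁻¹)ᵀ (H2 Eᵀ (H3 Eᵀ μ)) = H2 Eᵀ (H3 (E⁻¹)ᵀ (H3 Eᵀ μ)) := by
    rw [← Module.End.mul_apply, ← (c23 Eᵀ (E⁻¹)ᵀ).eq, Module.End.mul_apply]
  have e2 : H3 (E⁻¹)ᵀ (H3 Eᵀ μ) = μ := by
    rw [← Module.End.mul_apply, ← map_mul, hinv, map_one, Module.End.one_apply]
  have e3 : ∀ ν : Br n, H2 (E⁻¹)ᵀ (H2 Eᵀ ν) = ν := by
    intro ν
    rw [← Module.End.mul_apply, ← map_mul, hinv, map_one, Module.End.one_apply]
  rw [e1, e2, e3]

end R877.RN
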